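import Pool.Agent.Q248.GP.R

/-!
# Progressions of any rank inside iterated sumsets

In the theorems of Freiman type the progression is usually found inside an iterated sumset
`kA - kA` (for instance `2A - 2A`, by Bogolyubov's lemma). We show that with polynomial bounds this
is impossible, for progressions of ANY rank, proper or not: for `0 < ε`, `K ≥ 4` and
`1 ≤ k ≤ (log K) ^ (1 - ε) / 500` there is a finite nonempty set `A` of integers with
`|A + A| ≤ K |A|` such that every progression `P`, of any rank, that is contained in a translate of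
`kA - kA` has `|P| ≤ K ^ (- (ε / 3) log log K) |A|` elements.

Proof. Let `Λ = {x ∈ ℤ ^ d : a · x = 0 mod p}` be a random sublattice, `A = Λ ∩ [-R, R] ^ d`. The
nonzero vectors of `Λ` have `l¹` norm `> c d p ^ (1/d)`. If `P = {b + ∑ n_i v_i : 0 ≤ n_i < N_i}`
is in a translate of `kA - kA`, then for each coordinate `j` the sum of `(N_i - 1) |v_ij|` is at most
the width `4kR`; summing over `j` we find `c d p ^ (1/d) ∑ (N_i - 1) ≤ 4kRd`, so that
`|P| ≤ 2 ^ (4kRd / (c d p ^ (1/d)))`, whereas `|A|` has about `(R / p ^ (1/d)) ^ d` elements. Finally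
`A` is mapped to the integers.
-/

set_option autoImplicit false

namespace Pool.Agent.Results.MP_86f7a7_co.InsideSumsets

open Finset
open scoped Pointwise

/-- **No long progressions, of any rank, in the iterated sumsets.** The hypothesis on `b`, `v`, `N`
says that the progression `{b + ∑ n_i v_i : 0 ≤ n_i < N_i}` is contained in `x₀ + kA - kA`. -/
theorem result (ε K : ℝ) (k : ℕ) (hε : 0 < ε) (hK : 4 ≤ K) (hk : 1 ≤ k)
    (hkK : (k : ℝ) ≤ Real.log K ^ (1 - ε) / 500) :
    ∃ A : Finset ℤ, A.Nonempty ∧ ((A + A).card : ℝ) ≤ K * A.card ∧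
      ∀ (r : ℕ) (x₀ b : ℤ) (v : Fin r → ℤ) (N : Fin r → ℕ), (∀ i, 1 ≤ N i) →
        (∀ n : Fin r → ℕ, (∀ i, n i < N i) → ∃ s t : Fin k → ℤ, (∀ i, s i ∈ A) ∧ (∀ i, t i ∈ A) ∧
          b + ∑ i, n i • v i = x₀ + ∑ i, s i - ∑ i, t i) →
        (({x | ∃ n : Fin r → ℕ, (∀ i, n i < N i) ∧ x = b + ∑ i, n i • v i} : Set ℤ).ncard : ℝ) ≤
          K ^ (-(ε / 3 * Real.log (Real.log K))) * A.card := by
  obtain ⟨Λ, hΛ⟩ : ∃ Λ : ℝ, Λ = Real.log K := ⟨_, rfl⟩
  rw [← hΛ] at hkK ⊢
  have hK0 : 0 < K := by linarith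
  have hk1 : (1 : ℝ) ≤ k := by exact_mod_cast hk
  have hlog4 : Real.log 4 ≤ 7 / 5 := by
    have h1 : Real.log 4 = 2 * Real.log 2 := by
      rw [show (4 : ℝ) = 2 ^ 2 by norm_num, Real.log_pow]
      norm_num
    have := Real.log_two_lt_d9
    linarith
  have hlog4' : 1 ≤ Real.log 4 := by
    have h1 : Real.log 4 = 2 * Real.log 2 := by
      rw [show (4 : ℝ) = 2 ^ 2 by norm_num, Real.log_pow]
      norm_num
    have := Real.log_two_gt_d9
    linarith
  have hΛ1 : 1 ≤ Λ := by
    rw [hΛ]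
    exact hlog4'.trans (Real.log_le_log (by norm_num) hK)
  have hΛ0 : 0 < Λ := by linarith
  have h500 : 500 ≤ Λ ^ (1 - ε) := by
    have : (1 : ℝ) ≤ Λ ^ (1 - ε) / 500 := hk1.trans hkK
    linarith
  have hΛ500 : 500 ≤ Λ := by
    have h1 : Λ ^ (1 - ε) ≤ Λ ^ (1 : ℝ) :=
      Real.rpow_le_rpow_of_exponent_le (by linarith) (by linarith)
    rw [Real.rpow_one] at h1
    linarith
  obtain ⟨d, hd⟩ : ∃ d : ℕ, d = ⌊Λ / Real.log 4⌋₊ := ⟨_, rfl⟩
  have hdle : (d : ℝ) ≤ Λ / Real.log 4 := by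
    rw [hd]
    exact Nat.floor_le (by positivity)
  have hdlt : Λ / Real.log 4 < d + 1 := by
    rw [hd]
    exact Nat.lt_floor_add_one _
  have hdΛ : Λ * (352 / 1000) ≤ d := by
    have h1 : Λ / (7 / 5) ≤ Λ / Real.log 4 :=
      div_le_div_of_nonneg_left hΛ0.le (by linarith) hlog4
    have h2 : Λ / (7 / 5) = Λ * (5 / 7) := by ring
    rw [h2] at h1
    linarith
  have hd1 : 1 ≤ d := by
    have : (1 : ℝ) ≤ d := by linarith
    exact_mod_cast this
  have h4K : (4 : ℝ) ^ d ≤ K := by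
    rw [← Real.exp_log hK0, ← hΛ, ← Real.exp_log (show (0 : ℝ) < 4 by norm_num),
      ← Real.exp_nat_mul]
    apply Real.exp_le_exp.2
    have := (le_div_iff₀ (by linarith : (0 : ℝ) < Real.log 4)).1 hdle
    linarith
  obtain ⟨A, hA, hdbl, hlow, hprog⟩ :=
    Pool.Agent.Q248.GP.Neg.exists_int (d := d) (k := k) (R := d) hd1 hk le_rfl
  have hA0 : (0 : ℝ) ≤ A.card := Nat.cast_nonneg _
  refine ⟨A, hA, ?_, ?_⟩
  · calc ((A + A).card : ℝ) ≤ (4 : ℝ) ^ d * A.card := by exact_mod_cast hdbl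
      _ ≤ K * A.card := mul_le_mul_of_nonneg_right h4K hA0
  · intro r x₀ b v N hN hin
    have h1 := hprog r x₀ b v N hN hin
    have hd0 : (0 : ℝ) < d := by exact_mod_cast hd1
    have hk0 : (0 : ℝ) < k := by linarith
    have hlow' : ((d : ℝ) / (44 * k)) ^ d ≤ 2 * A.card := by
      refine le_trans (pow_le_pow_left₀ (by positivity) ?_ d) hlow
      have hexp := Real.exp_one_lt_d9
      have hexp0 := Real.exp_pos 1
      rw [div_le_div_iff₀ (by positivity) (by positivity)]
      have h2 : (d : ℝ) * (16 * Real.exp 1 * k * d) ≤ (d : ℝ) * (44 * k * d) := by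
        have : 16 * Real.exp 1 ≤ 44 := by linarith
        have h3 : 0 ≤ (k : ℝ) * d := by positivity
        have h4 : 16 * Real.exp 1 * k * d ≤ 44 * k * d := by nlinarith
        exact mul_le_mul_of_nonneg_left h4 hd0.le
      have h5 : (d : ℝ) * (44 * k * d) ≤ (d + 1) * d * (44 * k) := by
        have : 0 ≤ (d : ℝ) * (44 * k) := by positivity
        nlinarith
      linarith
    -- the main inequality
    have hpos44 : (0 : ℝ) < d / (44 * k) := by positivity
    have hmain : (2 : ℝ) ^ d * 2 * Real.exp (ε / 3 * Real.log Λ * Λ) ≤ (d / (44 * k)) ^ d := by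
      have h2 : Λ ^ ε ≤ d / (176 * k) := by
        rw [le_div_iff₀ (by positivity)]
        calc Λ ^ ε * (176 * k) ≤ Λ ^ ε * (176 * (Λ ^ (1 - ε) / 500)) := by gcongr
          _ = (Λ ^ ε * Λ ^ (1 - ε)) * (176 / 500) := by ring
          _ = Λ * (176 / 500) := by
              rw [← Real.rpow_add hΛ0]
              norm_num
          _ ≤ d := by linarith
      have h3 : Real.exp (ε / 3 * Real.log Λ * Λ) ≤ (Λ ^ ε) ^ d := by
        rw [← Real.rpow_natCast, ← Real.rpow_mul hΛ0.le, Real.rpow_def_of_pos hΛ0]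
        apply Real.exp_le_exp.2
        have h4 : 0 ≤ Real.log Λ * ε := mul_nonneg (Real.log_nonneg (by linarith)) hε.le
        have h5 : Λ / 3 ≤ d := by linarith
        calc ε / 3 * Real.log Λ * Λ = (Real.log Λ * ε) * (Λ / 3) := by ring
          _ ≤ (Real.log Λ * ε) * d := mul_le_mul_of_nonneg_left h5 h4
          _ = _ := by ring
      have h6 : (2 : ℝ) ≤ 2 ^ d := by
        calc (2 : ℝ) = 2 ^ 1 := (pow_one _).symm
          _ ≤ 2 ^ d := pow_le_pow_right₀ (by norm_num) hd1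
      calc (2 : ℝ) ^ d * 2 * Real.exp (ε / 3 * Real.log Λ * Λ)
          ≤ 2 ^ d * 2 ^ d * (d / (176 * k)) ^ d := by
            have h7 : (Λ ^ ε) ^ d ≤ (d / (176 * k)) ^ d := pow_le_pow_left₀ (by positivity) h2 d
            have h8 : Real.exp (ε / 3 * Real.log Λ * Λ) ≤ (d / (176 * k)) ^ d := h3.trans h7
            gcongr
        _ = (d / (44 * k)) ^ d := by
            rw [← mul_pow, ← mul_pow]
            congr 1
            field_simp
            norm_num
    have h9 : (2 : ℝ) ^ d ≤ Real.exp (-(ε / 3 * Real.log Λ * Λ)) * A.card := by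
      have h10 : (2 : ℝ) ^ d * Real.exp (ε / 3 * Real.log Λ * Λ) ≤ A.card := by linarith
      calc (2 : ℝ) ^ d = Real.exp (-(ε / 3 * Real.log Λ * Λ)) *
            ((2 : ℝ) ^ d * Real.exp (ε / 3 * Real.log Λ * Λ)) := by
            rw [mul_comm ((2 : ℝ) ^ d), ← mul_assoc, ← Real.exp_add, neg_add_cancel,
              Real.exp_zero, one_mul]
        _ ≤ _ := mul_le_mul_of_nonneg_left h10 (Real.exp_pos _).le
    have h11 : K ^ (-(ε / 3 * Real.log Λ)) = Real.exp (-(ε / 3 * Real.log Λ * Λ)) := by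
      rw [Real.rpow_def_of_pos hK0, ← hΛ]
      congr 1
      ring
    rw [h11]
    refine le_trans ?_ h9
    exact_mod_cast h1

end Pool.Agent.Results.MP_86f7a7_co.InsideSumsets
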