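import Pool.Agent.Q248.GP.C

/-!
# Freiman's theorem with proper progressions and polynomial bounds for many summands

Let `Z` be a torsion-free abelian group, `K ≥ 1`, `m ≥ 2`, and let
`W = (2 K) ^ (2 * 10 ^ 9 (1 + log (1 + log 2K) / log m))`, `D = 330000 (1 + log K / log m)`.

1. Let `φ₁, ..., φ_m` be injective homomorphisms from `Z` to an abelian group (for instance all
   equal to the identity of `Z`). If the equation `φ₁(a₁ - b₁) + ... + φ_m(a_m - b_m) = 0` has at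
   least `|A| ^ (2 m - 1) / K` solutions in the set `A`, then some proper progression of rank at
   most `D` and size at most `|A|` contains at least `|A| / W` elements of `A`.
2. If `|A₁ + ... + A_m| ≤ K |A_i|` for all `i`, then there is one proper progression of rank at
   most `D` and size at most `min |A_i|` such that every `A_i` is covered by `W` of its translates.
3. If `|φ₁ A + ... + φ_m A| ≤ K |A|` for injective homomorphisms `φ_i` as in 1 (for instance if the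
   `m`-fold sumset of `A` has at most `K |A|` elements), then `A` is covered by `W` translates of
   a proper progression of rank at most `D` and size at most `|A|`.
4. The exponent of `2 K` in `W` is at most `6 * 10 ^ 9 / ε` if `m ≥ (log 2K) ^ ε`.
-/

set_option autoImplicit false

open Finset
open scoped Pointwise

namespace Pool.Agent.Results.MP_86f7a7_co.ManySummands

universe u v

/-- **Freiman's theorem with proper progressions and polynomial bounds for many summands.** -/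
theorem result {Z : Type u} [AddCommGroup Z] [DecidableEq Z]
    (htf : ∀ (n : ℕ) (x : Z), n ≠ 0 → n • x = 0 → x = 0) (K : ℝ) (hK : 1 ≤ K)
    (m : ℕ) (hm : 2 ≤ m) :
    (∀ (Δ : Type v) [AddCommGroup Δ] [DecidableEq Δ] (φ : Fin m → Z →+ Δ),
      (∀ i, Function.Injective (φ i)) → ∀ A : Finset Z, A.Nonempty →
      (A.card : ℝ) ^ (2 * m - 1) ≤
        K * ((((Fintype.piFinset fun _ : Fin m => A) ×ˢ (Fintype.piFinset fun _ : Fin m => A)).filter
          fun p => ∑ i, φ i (p.1 i) = ∑ i, φ i (p.2 i)).card : ℝ) →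
      ∃ (d : ℕ) (a : Z) (v : Fin d → Z) (N : Fin d → ℕ),
        (d : ℝ) ≤ 330000 * (1 + Real.log K / Real.log m) ∧ (∀ i, 1 ≤ N i) ∧
        (∀ n n' : Fin d → ℕ, (∀ i, n i < N i) → (∀ i, n' i < N i) →
          ∑ i, n i • v i = ∑ i, n' i • v i → n = n') ∧
        ∏ i, N i ≤ A.card ∧
        (A.card : ℝ) ≤
          (2 * K) ^ (2 * (10 : ℝ) ^ 9 * (1 + Real.log (1 + Real.log (2 * K)) / Real.log m)) *
          (({x | x ∈ A ∧ ∃ n : Fin d → ℕ, (∀ i, n i < N i) ∧ x = a + ∑ i, n i • v i} :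
            Set Z).ncard : ℝ)) ∧
    (∀ A : Fin m → Finset Z, (∀ i, (A i).Nonempty) →
      (∀ i, ((∑ j, A j).card : ℝ) ≤ K * (A i).card) →
      ∃ (d : ℕ) (v : Fin d → Z) (N : Fin d → ℕ),
        (d : ℝ) ≤ 330000 * (1 + Real.log K / Real.log m) ∧ (∀ i, 1 ≤ N i) ∧
        (∀ n n' : Fin d → ℕ, (∀ i, n i < N i) → (∀ i, n' i < N i) →
          ∑ i, n i • v i = ∑ i, n' i • v i → n = n') ∧
        (∀ i, ∏ j, N j ≤ (A i).card) ∧
        ∀ i, ∃ T : Finset Z,
          (T.card : ℝ) ≤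
            (2 * K) ^ (2 * (10 : ℝ) ^ 9 * (1 + Real.log (1 + Real.log (2 * K)) / Real.log m)) ∧
          ∀ x ∈ A i, ∃ t ∈ T, ∃ n : Fin d → ℕ, (∀ j, n j < N j) ∧ x = t + ∑ j, n j • v j) ∧
    (∀ (Δ : Type v) [AddCommGroup Δ] [DecidableEq Δ] (φ : Fin m → Z →+ Δ),
      (∀ i, Function.Injective (φ i)) → ∀ A : Finset Z, A.Nonempty →
      ((∑ j, A.image (φ j)).card : ℝ) ≤ K * A.card →
      ∃ (d : ℕ) (v : Fin d → Z) (N : Fin d → ℕ) (T : Finset Z),
        (d : ℝ) ≤ 330000 * (1 + Real.log K / Real.log m) ∧ (∀ i, 1 ≤ N i) ∧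
        (∀ n n' : Fin d → ℕ, (∀ i, n i < N i) → (∀ i, n' i < N i) →
          ∑ i, n i • v i = ∑ i, n' i • v i → n = n') ∧
        ∏ i, N i ≤ A.card ∧
        (T.card : ℝ) ≤
          (2 * K) ^ (2 * (10 : ℝ) ^ 9 * (1 + Real.log (1 + Real.log (2 * K)) / Real.log m)) ∧
        ∀ x ∈ A, ∃ t ∈ T, ∃ n : Fin d → ℕ, (∀ i, n i < N i) ∧ x = t + ∑ i, n i • v i) ∧
    (∀ ε : ℝ, 0 < ε → ε ≤ 1 → Real.log (2 * K) ^ ε ≤ m →
      2 * (10 : ℝ) ^ 9 * (1 + Real.log (1 + Real.log (2 * K)) / Real.log m) ≤ 6 * 10 ^ 9 / ε) := by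
  classical
  have h2K : 0 < 2 * K := by linarith
  obtain ⟨w, hw⟩ : ∃ w : ℝ, w = (2 * K) ^ Pool.Agent.Q248.GP.expo K m := ⟨_, rfl⟩
  have hw0 : 0 < w := by rw [hw]; exact Real.rpow_pos_of_pos h2K _
  have hww : w * w = (2 * K) ^
      (2 * (10 : ℝ) ^ 9 * (1 + Real.log (1 + Real.log (2 * K)) / Real.log m)) := by
    rw [hw, ← Real.rpow_add h2K]
    congr 1
    unfold Pool.Agent.Q248.GP.expo
    ring
  rw [← hww]
  refine ⟨?_, ?_, ?_, ?_⟩
  · intro Δ _ _ φ hφ A hA hE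
    obtain ⟨d, B, ψ, t, hd, hB, hvol, hbig⟩ := Pool.Agent.Q130.HE.part1 htf hK hm φ hφ hA hE
    obtain ⟨k, v, N, X, hkd, hN, hprop, hNV, hX, hcov⟩ :=
      Pool.Agent.Q248.GP.gap_of_body hK hm hd hB ψ hA.card_pos hvol
    rw [← hw] at hX
    set A' : Finset Z := A.filter (fun x => ∃ c ∈ Pool.Agent.TH198.DC.LP B, x = t + ψ c) with hA'
    have hA'card : (({x | x ∈ A ∧ ∃ c ∈ Pool.Agent.TH198.DC.LP B, x = t + ψ c} : Set Z).ncard : ℝ)
        = A'.card := by
      rw [← Set.ncard_coe_finset, hA']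
      simp
    have hbig' : (A.card : ℝ) ≤ w * A'.card := by
      rw [← hA'card, hw]
      exact hbig
    have hAp : (0 : ℝ) < A.card := by exact_mod_cast hA.card_pos
    have hA'n : A'.Nonempty := by
      rw [← card_pos]
      by_contra hc
      have : A'.card = 0 := by omega
      rw [this] at hbig'
      simp at hbig'
      exact hA.ne_empty hbig'
    have hcovA : ∀ x ∈ A', ∃ s ∈ X, ∃ n : Fin k → ℕ, (∀ i, n i < N i) ∧
        x = (t + s) + ∑ i, n i • v i := by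
      intro x hx
      rw [hA', mem_filter] at hx
      obtain ⟨-, c, hc, rfl⟩ := hx
      obtain ⟨s, hs, n, hn, e⟩ := hcov c hc
      exact ⟨s, hs, n, hn, by rw [e]; abel⟩
    obtain ⟨s, hs, hcard⟩ := Pool.Agent.Q248.GP.cover_pigeonhole hA'n
      (fun s x => ∃ n : Fin k → ℕ, (∀ i, n i < N i) ∧ x = (t + s) + ∑ i, n i • v i) hcovA
    refine ⟨k, t + s, v, N, hkd, hN, hprop, hNV, ?_⟩
    have h1 : (A'.card : ℝ) ≤ w *
        (({x | x ∈ A ∧ ∃ n : Fin k → ℕ, (∀ i, n i < N i) ∧ x = (t + s) + ∑ i, n i • v i} :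
          Set Z).ncard : ℝ) := by
      have h2 : (A'.card : ℝ) ≤ X.card * ((A'.filter (fun x => ∃ n : Fin k → ℕ,
          (∀ i, n i < N i) ∧ x = (t + s) + ∑ i, n i • v i)).card : ℝ) := by
        exact_mod_cast hcard
      refine h2.trans (mul_le_mul hX ?_ (Nat.cast_nonneg _) hw0.le)
      have hfin : ({x | x ∈ A ∧ ∃ n : Fin k → ℕ, (∀ i, n i < N i) ∧
          x = (t + s) + ∑ i, n i • v i} : Set Z).Finite :=
        A.finite_toSet.subset (fun x hx => hx.1)
      have h3 : (A'.filter (fun x => ∃ n : Fin k → ℕ,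
          (∀ i, n i < N i) ∧ x = (t + s) + ∑ i, n i • v i)).card ≤
          ({x | x ∈ A ∧ ∃ n : Fin k → ℕ, (∀ i, n i < N i) ∧ x = (t + s) + ∑ i, n i • v i} :
            Set Z).ncard := by
        rw [← Set.ncard_coe_finset]
        apply Set.ncard_le_ncard _ hfin
        intro x hx
        rw [mem_coe, mem_filter, hA', mem_filter] at hx
        exact ⟨hx.1.1, hx.2⟩
      exact_mod_cast h3
    calc (A.card : ℝ) ≤ w * A'.card := hbig'
      _ ≤ w * (w * _) := mul_le_mul_of_nonneg_left h1 hw0.le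
      _ = _ := by ring
  · intro A hA h
    obtain ⟨d, B, ψ, hd, hB, hvol, hcovA⟩ := Pool.Agent.Q130.HE.part2 htf hK hm A hA h
    have : Nonempty (Fin m) := ⟨⟨0, by omega⟩⟩
    obtain ⟨i₁, -, hi₁⟩ := exists_min_image (univ : Finset (Fin m)) (fun i => (A i).card)
      univ_nonempty
    obtain ⟨k, v, N, X, hkd, hN, hprop, hNV, hX, hcov⟩ :=
      Pool.Agent.Q248.GP.gap_of_body hK hm hd hB ψ (hA i₁).card_pos (hvol i₁)
    rw [← hw] at hX
    refine ⟨k, v, N, hkd, hN, hprop, fun i => hNV.trans (hi₁ i (mem_univ _)), fun i => ?_⟩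
    obtain ⟨T, hT, hTc⟩ := hcovA i
    refine ⟨T + X, ?_, ?_⟩
    · have h1 : ((T + X).card : ℝ) ≤ T.card * X.card := by exact_mod_cast card_add_le
      refine h1.trans (mul_le_mul ?_ hX (Nat.cast_nonneg _) hw0.le)
      rw [hw]; exact hT
    · intro x hx
      obtain ⟨t, ht, c, hc, e⟩ := hTc x hx
      obtain ⟨s, hs, n, hn, e2⟩ := hcov c hc
      exact ⟨t + s, add_mem_add ht hs, n, hn, by rw [e, e2]; abel⟩
  · intro Δ _ _ φ hφ A hA h
    obtain ⟨d, B, ψ, T, hd, hB, hvol, hT, hTc⟩ := Pool.Agent.Q130.HE.part3 htf hK hm φ hφ hA h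
    obtain ⟨k, v, N, X, hkd, hN, hprop, hNV, hX, hcov⟩ :=
      Pool.Agent.Q248.GP.gap_of_body hK hm hd hB ψ hA.card_pos hvol
    rw [← hw] at hX
    refine ⟨k, v, N, T + X, hkd, hN, hprop, hNV, ?_, ?_⟩
    · have h1 : ((T + X).card : ℝ) ≤ T.card * X.card := by exact_mod_cast card_add_le
      refine h1.trans (mul_le_mul ?_ hX (Nat.cast_nonneg _) hw0.le)
      rw [hw]; exact hT
    · intro x hx
      obtain ⟨t, ht, c, hc, e⟩ := hTc x hx
      obtain ⟨s, hs, n, hn, e2⟩ := hcov c hc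
      exact ⟨t + s, add_mem_add ht hs, n, hn, by rw [e, e2]; abel⟩
  · intro ε hε hε1 h
    have := Pool.Agent.Q130.HE.expo_eps hK hm hε hε1 h
    calc 2 * (10 : ℝ) ^ 9 * (1 + Real.log (1 + Real.log (2 * K)) / Real.log m)
        = 2 * ((10 : ℝ) ^ 9 * (1 + Real.log (1 + Real.log (2 * K)) / Real.log m)) := by ring
      _ ≤ 2 * (3 * 10 ^ 9 / ε) := by linarith
      _ = _ := by ring

end Pool.Agent.Results.MP_86f7a7_co.ManySummands
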