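import Pool.Agent.Q137.NC.Fin

set_option autoImplicit false
open scoped Pointwise

namespace Pool.Agent.Results.MP_86f7a7_co.NoContainedProgressions

open Pool.Agent.Q137.NC

/-- For every `β < 1/2` there is `c > 0` such that for all `ε > 0` and all large `K` there are a
subgroup `L` of some `ℤ ^ n` (a torsion-free group) and a finite set `A ⊆ L` with
`|A + A| ≤ K |A|` and `|A| ≥ K ^ (c log log K)` such that every progression in `L`, of any rank,
proper or not, at least the proportion `δ` of whose parameters land in a translate of `l A - l A`,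
where `l / δ ≤ (log K) ^ β`, has at most `K ^ ε` elements. -/
theorem result (β : ℝ) (hβ0 : 0 ≤ β) (hβ : β < 1 / 2) :
    ∃ c : ℝ, 0 < c ∧ ∀ ε : ℝ, 0 < ε → ∃ K₀ : ℝ, ∀ K : ℝ, K₀ ≤ K →
      ∃ (n : ℕ) (L : AddSubgroup (Fin n → ℤ)) (A : Finset L),
        Doubling A K (K ^ (c * Real.log (Real.log K))) ∧
        OnlySmall A (Real.log K ^ β) (K ^ ε) :=
  main2 β hβ0 hβ

end Pool.Agent.Results.MP_86f7a7_co.NoContainedProgressions
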