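import Pool.Agent.Q221.GP.Many
import Pool.Agent.Q221.GP.Low

/-!
# Freiman-Ruzsa in torsion-free groups with proper progressions of the sharp rank: iterated sumsets,
# sums of many different sets, sums of linear images, energies of high order

Let `Z` be a torsion-free abelian group, `0 < ε ≤ 1` and `C = (900/ε)^(4⌈3000/ε⌉)`. A progression is
`{∑ n_i v_i : 0 ≤ n_i < N_i}`; it is proper if the sums are distinct.

1. If the `m`-fold sumset of the finite nonempty set `A` has at most `L |A|` elements, `m ≥ 2`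
   (`m = 2`: `|A + A| ≤ L |A|`), then `A` is covered by at most
   `(2 L) ^ (9 C (1 + log (1 + log 2L) / log m))` translates of one proper progression with at most
   `|A|` elements and of rank at most `max (1, (1 + ε) log₂ L / ⌊log₂ m⌋ + ε)`. The number of
   translates is polynomial in `L` if `m ≥ (1 + log 2L)^δ`.
2. If `|A₁ + ... + A_m| ≤ K |A_i|` for all `i` and `2 ≤ s ≤ m`, then there is ONE proper progression
   of rank at most `max (1, (1 + ε) (1 + s / (m - 1)) log₂ K / ⌊log₂ s⌋ + ε)` and with at most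
   `min |A_i|` elements such that every `A_i` is covered by
   `(2 K)^(163 C (1 + log (1 + log 2K) / log s))` of its translates. For `s = ⌊ε m⌋` the rank is at
   most `(1 + 5 ε) log₂ K / log₂ m`, up to lower order terms.
3. The same for one set `A` with `|φ₁ A + ... + φ_m A| ≤ K |A|`, for injective homomorphisms `φ_i`
   from `Z` to an abelian group (for instance the multiplications by nonzero integers).
4. If the equation `φ₁ a₁ + ... + φ_m a_m = φ₁ b₁ + ... + φ_m b_m` has at least `|A|^(2 m - 1) / K`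
   solutions in `A`, then a translate of a proper progression of rank at most
   `330000 (1 + log K / log m)` with at most `|A|` elements contains
   `|A| / (2 K)^(2 * 10 ^ 9 (1 + log (1 + log 2K) / log m))` elements of `A`.
5. The rank is sharp, even for progressions that are not proper and for all bounds for the number of
   translates that depend only on `m` and `L`: for all `m ≥ 1`, `d` and `M` there is a finite nonempty
   `A ⊆ ℤ` with `|m A| ≤ m ^ d |A|` such that more than `M` translates are needed to cover `A` by a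
   progression of rank less than `d` with at most `M |A|` elements.

Proof. The theorem of this team for convex progressions (`MP_626a77_co.IteratedSumsetsSharp`) covers
`A` by few translates of a convex progression of dimension `d ≤ 4 (1 + log (2 L) / log m)` and volume
at most `|A|`, which may be improper. By Milman's theorem and Voronoi cells (`conv_cover`) it is
covered by `(2 * 10 ^ 8) ^ d` translates of a proper one, and by the discrete theorem of John this is
covered by `(32 (d + 1) ^ 3) ^ d` translates of a proper progression. The loss is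
`(6.4 * 10 ^ 9 (d + 1) ^ 3) ^ d`, which is of the order of the bound because `d` is small if `m` is
large. Among `m` sets with a small sum there is one, `A₀`, with
`|s A₀| ≤ K ^ (1 + s / (m - 1)) |A₀|` for all `s` (the inequality of Plünnecke at a step with a small
increment; cf. helper130 of this team); the other sets are covered by `K` translates of `A₀ - A₀`.
Part 4 uses the theorem of `MP_626a77_co.ManySummands` on energies. For part 5 a progression of rank
`r`, as improper as one likes, is covered by `393216 ^ r (M + 1)` translates of a convex progression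
of dimension `r` and volume at most `|A|`.
-/

set_option autoImplicit false

open Finset
open scoped Pointwise

namespace Pool.Agent.Results.MP_86f7a7_co.SharpRank

universe u w

/-- **Freiman-Ruzsa with proper progressions of the sharp rank**: (1) iterated sumsets, (2) sums of
many different sets, (3) sums of linear images, (4) energies of high order, (5) the sharpness. -/
theorem result :
    (∀ (Z : Type u) [AddCommGroup Z] [DecidableEq Z],
      (∀ (n : ℕ) (x : Z), n ≠ 0 → n • x = 0 → x = 0) →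
      ∀ ε : ℝ, 0 < ε → ε ≤ 1 → ∀ m : ℕ, 2 ≤ m → ∀ (L : ℝ) (A : Finset Z), A.Nonempty →
      (((Fintype.piFinset fun _ : Fin m => A).image fun f => ∑ i, f i).card : ℝ) ≤
        L * (A.card : ℝ) →
      ∃ (d : ℕ) (v : Fin d → Z) (N : Fin d → ℕ) (T : Finset Z),
        (d : ℝ) ≤ max 1 ((1 + ε) * (Real.logb 2 L / (Nat.log 2 m : ℝ)) + ε) ∧
        (∀ i, 1 ≤ N i) ∧
        (∀ a b : Fin d → ℕ, (∀ i, a i < N i) → (∀ i, b i < N i) →
          ∑ i, a i • v i = ∑ i, b i • v i → a = b) ∧
        ∏ i, N i ≤ A.card ∧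
        (T.card : ℝ) ≤ (2 * L) ^ (9 * (900 / ε) ^ (4 * ⌈3000 / ε⌉₊) *
          (1 + Real.log (1 + Real.log (2 * L)) / Real.log m)) ∧
        ∀ a ∈ A, ∃ t ∈ T, ∃ n : Fin d → ℕ, (∀ i, n i < N i) ∧ a = t + ∑ i, n i • v i) ∧
    (∀ (Z : Type u) [AddCommGroup Z] [DecidableEq Z],
      (∀ (n : ℕ) (x : Z), n ≠ 0 → n • x = 0 → x = 0) →
      ∀ K : ℝ, 1 ≤ K → ∀ ε : ℝ, 0 < ε → ε ≤ 1 → ∀ s m : ℕ, 2 ≤ s → s ≤ m →
      ∀ A : Fin m → Finset Z, (∀ i, (A i).Nonempty) →
      (∀ i, ((∑ j, A j).card : ℝ) ≤ K * (A i).card) →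
      ∃ (d : ℕ) (v : Fin d → Z) (N : Fin d → ℕ),
        (d : ℝ) ≤ max 1 ((1 + ε) * ((1 + (s : ℝ) / ((m : ℝ) - 1)) *
          (Real.logb 2 K / (Nat.log 2 s : ℝ))) + ε) ∧
        (∀ i, 1 ≤ N i) ∧
        (∀ a b : Fin d → ℕ, (∀ i, a i < N i) → (∀ i, b i < N i) →
          ∑ i, a i • v i = ∑ i, b i • v i → a = b) ∧
        (∀ i, ∏ j, N j ≤ (A i).card) ∧
        ∀ i, ∃ T : Finset Z,
          (T.card : ℝ) ≤ (2 * K) ^ (163 * (900 / ε) ^ (4 * ⌈3000 / ε⌉₊) *
            (1 + Real.log (1 + Real.log (2 * K)) / Real.log s)) ∧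
          ∀ a ∈ A i, ∃ t ∈ T, ∃ n : Fin d → ℕ, (∀ i, n i < N i) ∧ a = t + ∑ i, n i • v i) ∧
    (∀ (Z : Type u) [AddCommGroup Z] [DecidableEq Z],
      (∀ (n : ℕ) (x : Z), n ≠ 0 → n • x = 0 → x = 0) →
      ∀ K : ℝ, 1 ≤ K → ∀ ε : ℝ, 0 < ε → ε ≤ 1 → ∀ s m : ℕ, 2 ≤ s → s ≤ m →
      ∀ (G : Type w) [AddCommGroup G] [DecidableEq G] (φ : Fin m → Z →+ G),
      (∀ i, Function.Injective (φ i)) → ∀ A : Finset Z, A.Nonempty →
      ((∑ j, A.image (φ j)).card : ℝ) ≤ K * A.card →
      ∃ (d : ℕ) (v : Fin d → Z) (N : Fin d → ℕ) (T : Finset Z),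
        (d : ℝ) ≤ max 1 ((1 + ε) * ((1 + (s : ℝ) / ((m : ℝ) - 1)) *
          (Real.logb 2 K / (Nat.log 2 s : ℝ))) + ε) ∧
        (∀ i, 1 ≤ N i) ∧
        (∀ a b : Fin d → ℕ, (∀ i, a i < N i) → (∀ i, b i < N i) →
          ∑ i, a i • v i = ∑ i, b i • v i → a = b) ∧
        ∏ j, N j ≤ A.card ∧
        (T.card : ℝ) ≤ (2 * K) ^ (81 * (900 / ε) ^ (4 * ⌈3000 / ε⌉₊) *
          (1 + Real.log (1 + Real.log (2 * K)) / Real.log s)) ∧
        ∀ a ∈ A, ∃ t ∈ T, ∃ n : Fin d → ℕ, (∀ i, n i < N i) ∧ a = t + ∑ i, n i • v i) ∧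
    (∀ (Z : Type u) [AddCommGroup Z] [DecidableEq Z],
      (∀ (n : ℕ) (x : Z), n ≠ 0 → n • x = 0 → x = 0) →
      ∀ K : ℝ, 1 ≤ K → ∀ m : ℕ, 2 ≤ m →
      ∀ (G : Type w) [AddCommGroup G] [DecidableEq G] (φ : Fin m → Z →+ G),
      (∀ i, Function.Injective (φ i)) → ∀ A : Finset Z, A.Nonempty →
      (A.card : ℝ) ^ (2 * m - 1) ≤
        K * ((((Fintype.piFinset fun _ : Fin m => A) ×ˢ (Fintype.piFinset fun _ : Fin m => A)).filter
          fun p => ∑ i, φ i (p.1 i) = ∑ i, φ i (p.2 i)).card : ℝ) →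
      ∃ (d : ℕ) (v : Fin d → Z) (N : Fin d → ℕ) (t : Z),
        (d : ℝ) ≤ 330000 * (1 + Real.log K / Real.log m) ∧
        (∀ i, 1 ≤ N i) ∧
        (∀ a b : Fin d → ℕ, (∀ i, a i < N i) → (∀ i, b i < N i) →
          ∑ i, a i • v i = ∑ i, b i • v i → a = b) ∧
        ∏ j, N j ≤ A.card ∧
        (A.card : ℝ) ≤ (2 * K) ^ (2 * (10 : ℝ) ^ 9 *
            (1 + Real.log (1 + Real.log (2 * K)) / Real.log m)) *
          (({a | a ∈ A ∧ ∃ n : Fin d → ℕ, (∀ i, n i < N i) ∧ a = t + ∑ i, n i • v i} :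
            Set Z).ncard : ℝ)) ∧
    (∀ m d M : ℕ, 1 ≤ m → ∃ A : Finset ℤ, A.Nonempty ∧
      ((Fintype.piFinset fun _ : Fin m => A).image fun f => ∑ i, f i).card ≤ m ^ d * A.card ∧
      ∀ r < d, ∀ (v : Fin r → ℤ) (N : Fin r → ℕ),
        {x : ℤ | ∃ n : Fin r → ℕ, (∀ i, n i < N i) ∧ x = ∑ i, n i • v i}.ncard ≤ M * A.card →
        ∀ T : Finset ℤ,
          (∀ a ∈ A, ∃ t ∈ T, ∃ n : Fin r → ℕ, (∀ i, n i < N i) ∧ a = t + ∑ i, n i • v i) →
          M < T.card) := by
  refine ⟨?_, ?_, ?_, ?_, ?_⟩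
  · intro Z _ _ htf ε h0 h1 m hm L A hA hL
    exact Pool.Agent.Q221.GP.upper htf h0 h1 hm hA hL
  · intro Z _ _ htf K hK ε h0 h1 s m hs hsm A hA h
    exact Pool.Agent.Q221.GP.many htf h0 h1 hs hsm hK A hA h
  · intro Z _ _ htf K hK ε h0 h1 s m hs hsm G _ _ φ hφ A hA h
    exact Pool.Agent.Q221.GP.images htf h0 h1 hs hsm hK φ hφ hA h
  · intro Z _ _ htf K hK m hm G _ _ φ hφ A hA h
    exact Pool.Agent.Q221.GP.energy htf hm hK φ hφ hA h
  · intro m d M hm
    obtain ⟨A, hA, hA2, h⟩ := Pool.Agent.Q221.GP.lower m d M hm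
    exact ⟨A, hA, hA2, fun r hr v N hP T hcov => h r hr v N hP T hcov⟩

end Pool.Agent.Results.MP_86f7a7_co.SharpRank
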